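import Pool.Agent.W546.N4.Defs

/-!
# Slopes in dimension `N = 4` (St4_SL)
-/
set_option autoImplicit false
open Matrix MeasureTheory Set Metric Filter Topology
open scoped ENNReal Nat

namespace Pool.Agent.W672.N4
open Pool.Agent.Helper82.OS Pool.Agent.W546.ST Pool.Agent.W546.N4

theorem final {a b Dr Y R Rr Rs W : ℝ} (ha : 0 ≤ a) (hb : 0 ≤ b) (hab : a + b = 1)
    (hD : 0 ≤ Dr) (hRs : 0 ≤ Rs) (hW : 0 ≤ W) (hRR : Rr ≤ R) (hY : b * Y = a * Rr) :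
    (a / 32 + b / 14) * (Dr + Y + R) ≤
      R / 14 + (Rs + 3 / 2 * Dr + Y / 2 + W) / 16 - 37 / 5600 * Rs := by
  have h1 : b * Y ≤ a * R := by rw [hY]; exact mul_le_mul_of_nonneg_left hRR ha
  have h2 : 0 ≤ b * Dr := mul_nonneg hb hD
  have h3 : 0 ≤ a * Dr := mul_nonneg ha hD
  have ha' : a = 1 - b := by linarith
  subst ha'
  nlinarith

theorem SL : St4_SL := by
  intro G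
  obtain ⟨Ga, x0, xe, hx, sk, cr, z0, z1, z2⟩ := G
  have sk' : ∀ j a b, Ga j a b = -Ga j b a := by
    intro j a b
    have := congrFun (congrFun (sk j) b) a
    simpa [Matrix.transpose_apply] using this
  have d00 : Ga 0 0 0 = 0 := by have := sk' 0 0 0; linarith
  have d01 : Ga 0 1 1 = 0 := by have := sk' 0 1 1; linarith
  have d02 : Ga 0 2 2 = 0 := by have := sk' 0 2 2; linarith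
  have d03 : Ga 0 3 3 = 0 := by have := sk' 0 3 3; linarith
  have d04 : Ga 0 4 4 = 0 := by have := sk' 0 4 4; linarith
  have d10 : Ga 1 0 0 = 0 := by have := sk' 1 0 0; linarith
  have d11 : Ga 1 1 1 = 0 := by have := sk' 1 1 1; linarith
  have d12 : Ga 1 2 2 = 0 := by have := sk' 1 2 2; linarith
  have d13 : Ga 1 3 3 = 0 := by have := sk' 1 3 3; linarith
  have d14 : Ga 1 4 4 = 0 := by have := sk' 1 4 4; linarith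
  have d20 : Ga 2 0 0 = 0 := by have := sk' 2 0 0; linarith
  have d21 : Ga 2 1 1 = 0 := by have := sk' 2 1 1; linarith
  have d22 : Ga 2 2 2 = 0 := by have := sk' 2 2 2; linarith
  have d23 : Ga 2 3 3 = 0 := by have := sk' 2 3 3; linarith
  have d24 : Ga 2 4 4 = 0 := by have := sk' 2 4 4; linarith
  have d30 : Ga 3 0 0 = 0 := by have := sk' 3 0 0; linarith
  have d31 : Ga 3 1 1 = 0 := by have := sk' 3 1 1; linarith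
  have d32 : Ga 3 2 2 = 0 := by have := sk' 3 2 2; linarith
  have d33 : Ga 3 3 3 = 0 := by have := sk' 3 3 3; linarith
  have d34 : Ga 3 4 4 = 0 := by have := sk' 3 4 4; linarith
  have s010 : Ga 0 1 0 = -Ga 0 0 1 := sk' 0 1 0
  have s020 : Ga 0 2 0 = -Ga 0 0 2 := sk' 0 2 0
  have s030 : Ga 0 3 0 = -Ga 0 0 3 := sk' 0 3 0
  have s040 : Ga 0 4 0 = -Ga 0 0 4 := sk' 0 4 0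
  have s021 : Ga 0 2 1 = -Ga 0 1 2 := sk' 0 2 1
  have s031 : Ga 0 3 1 = -Ga 0 1 3 := sk' 0 3 1
  have s041 : Ga 0 4 1 = -Ga 0 1 4 := sk' 0 4 1
  have s032 : Ga 0 3 2 = -Ga 0 2 3 := sk' 0 3 2
  have s042 : Ga 0 4 2 = -Ga 0 2 4 := sk' 0 4 2
  have s043 : Ga 0 4 3 = -Ga 0 3 4 := sk' 0 4 3
  have s110 : Ga 1 1 0 = -Ga 1 0 1 := sk' 1 1 0
  have s120 : Ga 1 2 0 = -Ga 1 0 2 := sk' 1 2 0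
  have s130 : Ga 1 3 0 = -Ga 1 0 3 := sk' 1 3 0
  have s140 : Ga 1 4 0 = -Ga 1 0 4 := sk' 1 4 0
  have s121 : Ga 1 2 1 = -Ga 1 1 2 := sk' 1 2 1
  have s131 : Ga 1 3 1 = -Ga 1 1 3 := sk' 1 3 1
  have s141 : Ga 1 4 1 = -Ga 1 1 4 := sk' 1 4 1
  have s132 : Ga 1 3 2 = -Ga 1 2 3 := sk' 1 3 2
  have s142 : Ga 1 4 2 = -Ga 1 2 4 := sk' 1 4 2
  have s143 : Ga 1 4 3 = -Ga 1 3 4 := sk' 1 4 3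
  have s210 : Ga 2 1 0 = -Ga 2 0 1 := sk' 2 1 0
  have s220 : Ga 2 2 0 = -Ga 2 0 2 := sk' 2 2 0
  have s230 : Ga 2 3 0 = -Ga 2 0 3 := sk' 2 3 0
  have s240 : Ga 2 4 0 = -Ga 2 0 4 := sk' 2 4 0
  have s221 : Ga 2 2 1 = -Ga 2 1 2 := sk' 2 2 1
  have s231 : Ga 2 3 1 = -Ga 2 1 3 := sk' 2 3 1
  have s241 : Ga 2 4 1 = -Ga 2 1 4 := sk' 2 4 1
  have s232 : Ga 2 3 2 = -Ga 2 2 3 := sk' 2 3 2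
  have s242 : Ga 2 4 2 = -Ga 2 2 4 := sk' 2 4 2
  have s243 : Ga 2 4 3 = -Ga 2 3 4 := sk' 2 4 3
  have s310 : Ga 3 1 0 = -Ga 3 0 1 := sk' 3 1 0
  have s320 : Ga 3 2 0 = -Ga 3 0 2 := sk' 3 2 0
  have s330 : Ga 3 3 0 = -Ga 3 0 3 := sk' 3 3 0
  have s340 : Ga 3 4 0 = -Ga 3 0 4 := sk' 3 4 0
  have s321 : Ga 3 2 1 = -Ga 3 1 2 := sk' 3 2 1
  have s331 : Ga 3 3 1 = -Ga 3 1 3 := sk' 3 3 1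
  have s341 : Ga 3 4 1 = -Ga 3 1 4 := sk' 3 4 1
  have s332 : Ga 3 3 2 = -Ga 3 2 3 := sk' 3 3 2
  have s342 : Ga 3 4 2 = -Ga 3 2 4 := sk' 3 4 2
  have s343 : Ga 3 4 3 = -Ga 3 3 4 := sk' 3 4 3
  have o012 : Ga 0 1 2 = 0 := z0 0 1
  have o013 : Ga 0 1 3 = 0 := z0 0 2
  have o023 : Ga 0 2 3 = 0 := z0 1 2
  have o123 : Ga 1 2 3 = 0 := z1 0 1 2 (by decide) (by decide) (by decide)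
  have o213 : Ga 2 1 3 = 0 := z1 1 0 2 (by decide) (by decide) (by decide)
  have o312 : Ga 3 1 2 = 0 := z1 2 0 1 (by decide) (by decide) (by decide)
  have y12 : xe * Ga 1 2 0 = x0 * Ga 1 2 4 := z2 0 1 (by decide)
  have y13 : xe * Ga 1 3 0 = x0 * Ga 1 3 4 := z2 0 2 (by decide)
  have y21 : xe * Ga 2 1 0 = x0 * Ga 2 1 4 := z2 1 0 (by decide)
  have y23 : xe * Ga 2 3 0 = x0 * Ga 2 3 4 := z2 1 2 (by decide)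
  have y31 : xe * Ga 3 1 0 = x0 * Ga 3 1 4 := z2 2 0 (by decide)
  have y32 : xe * Ga 3 2 0 = x0 * Ga 3 2 4 := z2 2 1 (by decide)
  have key := final (a := x0 ^ 2) (b := xe ^ 2) (Dr := (Ga 0 0 1) ^ 2 + (Ga 0 0 2) ^ 2 + (Ga 0 0 3) ^ 2 + (Ga 1 0 1) ^ 2 + (Ga 1 1 2) ^ 2 + (Ga 1 1 3) ^ 2 + (Ga 2 0 2) ^ 2 + (Ga 2 1 2) ^ 2 + (Ga 2 2 3) ^ 2 + (Ga 3 0 3) ^ 2 + (Ga 3 1 3) ^ 2 + (Ga 3 2 3) ^ 2)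
    (Y := (Ga 1 0 2) ^ 2 + (Ga 1 0 3) ^ 2 + (Ga 2 0 1) ^ 2 + (Ga 2 0 3) ^ 2 + (Ga 3 0 1) ^ 2 + (Ga 3 0 2) ^ 2)
    (R := (Ga 0 0 4) ^ 2 + (Ga 0 1 4) ^ 2 + (Ga 0 2 4) ^ 2 + (Ga 0 3 4) ^ 2 + (Ga 1 0 4) ^ 2 + (Ga 1 1 4) ^ 2 + (Ga 1 2 4) ^ 2 + (Ga 1 3 4) ^ 2 + (Ga 2 0 4) ^ 2 + (Ga 2 1 4) ^ 2 + (Ga 2 2 4) ^ 2 + (Ga 2 3 4) ^ 2 + (Ga 3 0 4) ^ 2 + (Ga 3 1 4) ^ 2 + (Ga 3 2 4) ^ 2 + (Ga 3 3 4) ^ 2)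
    (Rr := (Ga 1 2 4) ^ 2 + (Ga 1 3 4) ^ 2 + (Ga 2 1 4) ^ 2 + (Ga 2 3 4) ^ 2 + (Ga 3 1 4) ^ 2 + (Ga 3 2 4) ^ 2)
    (Rs := ((Ga 0 0 4 + Ga 0 0 4) / 2) ^ 2 + ((Ga 0 1 4 + Ga 1 0 4) / 2) ^ 2 + ((Ga 0 2 4 + Ga 2 0 4) / 2) ^ 2 + ((Ga 0 3 4 + Ga 3 0 4) / 2) ^ 2 + ((Ga 1 0 4 + Ga 0 1 4) / 2) ^ 2 + ((Ga 1 1 4 + Ga 1 1 4) / 2) ^ 2 + ((Ga 1 2 4 + Ga 2 1 4) / 2) ^ 2 + ((Ga 1 3 4 + Ga 3 1 4) / 2) ^ 2 + ((Ga 2 0 4 + Ga 0 2 4) / 2) ^ 2 + ((Ga 2 1 4 + Ga 1 2 4) / 2) ^ 2 + ((Ga 2 2 4 + Ga 2 2 4) / 2) ^ 2 + ((Ga 2 3 4 + Ga 3 2 4) / 2) ^ 2 + ((Ga 3 0 4 + Ga 0 3 4) / 2) ^ 2 + ((Ga 3 1 4 + Ga 1 3 4) / 2) ^ 2 + ((Ga 3 2 4 + Ga 2 3 4) / 2) ^ 2 + ((Ga 3 3 4 + Ga 3 3 4) / 2) ^ 2)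
    (W := ((Ga 1 0 2 + Ga 2 0 1) / 2) ^ 2 + ((Ga 1 0 3 + Ga 3 0 1) / 2) ^ 2 + ((Ga 2 0 1 + Ga 1 0 2) / 2) ^ 2 + ((Ga 2 0 3 + Ga 3 0 2) / 2) ^ 2 + ((Ga 3 0 1 + Ga 1 0 3) / 2) ^ 2 + ((Ga 3 0 2 + Ga 2 0 3) / 2) ^ 2)
    (sq_nonneg _) (sq_nonneg _) hx (by positivity) (by positivity) (by positivity) ?_ ?_
  · have e0 : (Fin.castSucc (0 : Fin 4)) = (0 : Fin 5) := rfl
    have e1 : (Fin.castSucc (1 : Fin 4)) = (1 : Fin 5) := rfl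
    have e2 : (Fin.castSucc (2 : Fin 4)) = (2 : Fin 5) := rfl
    have e3 : (Fin.castSucc (3 : Fin 4)) = (3 : Fin 5) := rfl
    have hR2 : NP.R2 ⟨Ga, x0, xe, hx, sk, cr, z0, z1, z2⟩ = (Ga 0 0 4) ^ 2 + (Ga 0 1 4) ^ 2 + (Ga 0 2 4) ^ 2 + (Ga 0 3 4) ^ 2 + (Ga 1 0 4) ^ 2 + (Ga 1 1 4) ^ 2 + (Ga 1 2 4) ^ 2 + (Ga 1 3 4) ^ 2 + (Ga 2 0 4) ^ 2 + (Ga 2 1 4) ^ 2 + (Ga 2 2 4) ^ 2 + (Ga 2 3 4) ^ 2 + (Ga 3 0 4) ^ 2 + (Ga 3 1 4) ^ 2 + (Ga 3 2 4) ^ 2 + (Ga 3 3 4) ^ 2 := by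
      simp only [NP.R2, Fin.sum_univ_four, e0, e1, e2, e3]
      ring
    have hRs : NP.Rs ⟨Ga, x0, xe, hx, sk, cr, z0, z1, z2⟩ = ((Ga 0 0 4 + Ga 0 0 4) / 2) ^ 2 + ((Ga 0 1 4 + Ga 1 0 4) / 2) ^ 2 + ((Ga 0 2 4 + Ga 2 0 4) / 2) ^ 2 + ((Ga 0 3 4 + Ga 3 0 4) / 2) ^ 2 + ((Ga 1 0 4 + Ga 0 1 4) / 2) ^ 2 + ((Ga 1 1 4 + Ga 1 1 4) / 2) ^ 2 + ((Ga 1 2 4 + Ga 2 1 4) / 2) ^ 2 + ((Ga 1 3 4 + Ga 3 1 4) / 2) ^ 2 + ((Ga 2 0 4 + Ga 0 2 4) / 2) ^ 2 + ((Ga 2 1 4 + Ga 1 2 4) / 2) ^ 2 + ((Ga 2 2 4 + Ga 2 2 4) / 2) ^ 2 + ((Ga 2 3 4 + Ga 3 2 4) / 2) ^ 2 + ((Ga 3 0 4 + Ga 0 3 4) / 2) ^ 2 + ((Ga 3 1 4 + Ga 1 3 4) / 2) ^ 2 + ((Ga 3 2 4 + Ga 2 3 4) / 2) ^ 2 + ((Ga 3 3 4 + Ga 3 3 4) / 2) ^ 2 := by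
      simp only [NP.Rs, Fin.sum_univ_four, e0, e1, e2, e3]
      ring
    have hD : NP.D ⟨Ga, x0, xe, hx, sk, cr, z0, z1, z2⟩ = ((Ga 0 0 1) ^ 2 + (Ga 0 0 2) ^ 2 + (Ga 0 0 3) ^ 2 + (Ga 1 0 1) ^ 2 + (Ga 1 1 2) ^ 2 + (Ga 1 1 3) ^ 2 + (Ga 2 0 2) ^ 2 + (Ga 2 1 2) ^ 2 + (Ga 2 2 3) ^ 2 + (Ga 3 0 3) ^ 2 + (Ga 3 1 3) ^ 2 + (Ga 3 2 3) ^ 2) + ((Ga 1 0 2) ^ 2 + (Ga 1 0 3) ^ 2 + (Ga 2 0 1) ^ 2 + (Ga 2 0 3) ^ 2 + (Ga 3 0 1) ^ 2 + (Ga 3 0 2) ^ 2) + ((Ga 0 0 4) ^ 2 + (Ga 0 1 4) ^ 2 + (Ga 0 2 4) ^ 2 + (Ga 0 3 4) ^ 2 + (Ga 1 0 4) ^ 2 + (Ga 1 1 4) ^ 2 + (Ga 1 2 4) ^ 2 + (Ga 1 3 4) ^ 2 + (Ga 2 0 4) ^ 2 + (Ga 2 1 4) ^ 2 + (Ga 2 2 4) ^ 2 + (Ga 2 3 4) ^ 2 + (Ga 3 0 4) ^ 2 + (Ga 3 1 4) ^ 2 + (Ga 3 2 4) ^ 2 + (Ga 3 3 4) ^ 2) := by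
      simp only [NP.D, Fin.sum_univ_four, Fin.sum_univ_five, d00, d01, d02, d03, d04, d10, d11, d12, d13, d14, d20, d21, d22, d23, d24, d30, d31, d32, d33, d34, s010, s020, s030, s040, s021, s031, s041, s032, s042, s043, s110, s120, s130, s140, s121, s131, s141, s132, s142, s143, s210, s220, s230, s240, s221, s231, s241, s232, s242, s243, s310, s320, s330, s340, s321, s331, s341, s332, s342, s343, o012, o013, o023, o123, o213, o312]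
      ring
    have hs : NP.s2 ⟨Ga, x0, xe, hx, sk, cr, z0, z1, z2⟩ = (((Ga 0 0 4 + Ga 0 0 4) / 2) ^ 2 + ((Ga 0 1 4 + Ga 1 0 4) / 2) ^ 2 + ((Ga 0 2 4 + Ga 2 0 4) / 2) ^ 2 + ((Ga 0 3 4 + Ga 3 0 4) / 2) ^ 2 + ((Ga 1 0 4 + Ga 0 1 4) / 2) ^ 2 + ((Ga 1 1 4 + Ga 1 1 4) / 2) ^ 2 + ((Ga 1 2 4 + Ga 2 1 4) / 2) ^ 2 + ((Ga 1 3 4 + Ga 3 1 4) / 2) ^ 2 + ((Ga 2 0 4 + Ga 0 2 4) / 2) ^ 2 + ((Ga 2 1 4 + Ga 1 2 4) / 2) ^ 2 + ((Ga 2 2 4 + Ga 2 2 4) / 2) ^ 2 + ((Ga 2 3 4 + Ga 3 2 4) / 2) ^ 2 + ((Ga 3 0 4 + Ga 0 3 4) / 2) ^ 2 + ((Ga 3 1 4 + Ga 1 3 4) / 2) ^ 2 + ((Ga 3 2 4 + Ga 2 3 4) / 2) ^ 2 + ((Ga 3 3 4 + Ga 3 3 4) / 2) ^ 2) + 3 / 2 * ((Ga 0 0 1) ^ 2 + (Ga 0 0 2) ^ 2 + (Ga 0 0 3) ^ 2 + (Ga 1 0 1) ^ 2 + (Ga 1 1 2) ^ 2 + (Ga 1 1 3) ^ 2 + (Ga 2 0 2) ^ 2 +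 (Ga 2 1 2) ^ 2 + (Ga 2 2 3) ^ 2 + (Ga 3 0 3) ^ 2 + (Ga 3 1 3) ^ 2 + (Ga 3 2 3) ^ 2) + ((Ga 1 0 2) ^ 2 + (Ga 1 0 3) ^ 2 + (Ga 2 0 1) ^ 2 + (Ga 2 0 3) ^ 2 + (Ga 3 0 1) ^ 2 + (Ga 3 0 2) ^ 2) / 2 + (((Ga 1 0 2 + Ga 2 0 1) / 2) ^ 2 + ((Ga 1 0 3 + Ga 3 0 1) / 2) ^ 2 + ((Ga 2 0 1 + Ga 1 0 2) / 2) ^ 2 + ((Ga 2 0 3 + Ga 3 0 2) / 2) ^ 2 + ((Ga 3 0 1 + Ga 1 0 3) / 2) ^ 2 + ((Ga 3 0 2 + Ga 2 0 3) / 2) ^ 2) := by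
      simp only [NP.s2, Fin.sum_univ_four, Fin.sum_univ_five, e0, e1, e2, e3, d00, d01, d02, d03, d04, d10, d11, d12, d13, d14, d20, d21, d22, d23, d24, d30, d31, d32, d33, d34, s010, s020, s030, s040, s021, s031, s041, s032, s042, s043, s110, s120, s130, s140, s121, s131, s141, s132, s142, s143, s210, s220, s230, s240, s221, s231, s241, s232, s242, s243, s310, s320, s330, s340, s321, s331, s341, s332, s342, s343, o012, o013, o023, o123, o213, o312]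
      ring
    rw [hR2, hRs, hD, hs]
    exact key
  · have hp : ∀ a b : ℝ, 0 ≤ b → a ≤ a + b := fun a b h => by linarith
    have hp2 : (0 : ℝ) ≤ (Ga 0 0 4) ^ 2 + (Ga 0 1 4) ^ 2 + (Ga 0 2 4) ^ 2 + (Ga 0 3 4) ^ 2 + (Ga 1 0 4) ^ 2 + (Ga 1 1 4) ^ 2 + (Ga 2 0 4) ^ 2 + (Ga 2 2 4) ^ 2 + (Ga 3 0 4) ^ 2 + (Ga 3 3 4) ^ 2 := by positivity
    linarith
  · have q12 : xe ^ 2 * (Ga 1 0 2) ^ 2 = x0 ^ 2 * (Ga 1 2 4) ^ 2 := by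
      have h := y12
      rw [s120] at h
      have h2 : (xe * -Ga 1 0 2) ^ 2 = (x0 * Ga 1 2 4) ^ 2 := by rw [h]
      linarith [h2, (by ring : (xe * -Ga 1 0 2) ^ 2 = xe ^ 2 * (Ga 1 0 2) ^ 2), (by ring : (x0 * Ga 1 2 4) ^ 2 = x0 ^ 2 * (Ga 1 2 4) ^ 2)]
    have q13 : xe ^ 2 * (Ga 1 0 3) ^ 2 = x0 ^ 2 * (Ga 1 3 4) ^ 2 := by
      have h := y13
      rw [s130] at h
      have h2 : (xe * -Ga 1 0 3) ^ 2 = (x0 * Ga 1 3 4) ^ 2 := by rw [h]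
      linarith [h2, (by ring : (xe * -Ga 1 0 3) ^ 2 = xe ^ 2 * (Ga 1 0 3) ^ 2), (by ring : (x0 * Ga 1 3 4) ^ 2 = x0 ^ 2 * (Ga 1 3 4) ^ 2)]
    have q21 : xe ^ 2 * (Ga 2 0 1) ^ 2 = x0 ^ 2 * (Ga 2 1 4) ^ 2 := by
      have h := y21
      rw [s210] at h
      have h2 : (xe * -Ga 2 0 1) ^ 2 = (x0 * Ga 2 1 4) ^ 2 := by rw [h]
      linarith [h2, (by ring : (xe * -Ga 2 0 1) ^ 2 = xe ^ 2 * (Ga 2 0 1) ^ 2), (by ring : (x0 * Ga 2 1 4) ^ 2 = x0 ^ 2 * (Ga 2 1 4) ^ 2)]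
    have q23 : xe ^ 2 * (Ga 2 0 3) ^ 2 = x0 ^ 2 * (Ga 2 3 4) ^ 2 := by
      have h := y23
      rw [s230] at h
      have h2 : (xe * -Ga 2 0 3) ^ 2 = (x0 * Ga 2 3 4) ^ 2 := by rw [h]
      linarith [h2, (by ring : (xe * -Ga 2 0 3) ^ 2 = xe ^ 2 * (Ga 2 0 3) ^ 2), (by ring : (x0 * Ga 2 3 4) ^ 2 = x0 ^ 2 * (Ga 2 3 4) ^ 2)]
    have q31 : xe ^ 2 * (Ga 3 0 1) ^ 2 = x0 ^ 2 * (Ga 3 1 4) ^ 2 := by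
      have h := y31
      rw [s310] at h
      have h2 : (xe * -Ga 3 0 1) ^ 2 = (x0 * Ga 3 1 4) ^ 2 := by rw [h]
      linarith [h2, (by ring : (xe * -Ga 3 0 1) ^ 2 = xe ^ 2 * (Ga 3 0 1) ^ 2), (by ring : (x0 * Ga 3 1 4) ^ 2 = x0 ^ 2 * (Ga 3 1 4) ^ 2)]
    have q32 : xe ^ 2 * (Ga 3 0 2) ^ 2 = x0 ^ 2 * (Ga 3 2 4) ^ 2 := by
      have h := y32
      rw [s320] at h
      have h2 : (xe * -Ga 3 0 2) ^ 2 = (x0 * Ga 3 2 4) ^ 2 := by rw [h]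
      linarith [h2, (by ring : (xe * -Ga 3 0 2) ^ 2 = xe ^ 2 * (Ga 3 0 2) ^ 2), (by ring : (x0 * Ga 3 2 4) ^ 2 = x0 ^ 2 * (Ga 3 2 4) ^ 2)]
    simp only [mul_add, q12, q13, q21, q23, q31, q32]

end Pool.Agent.W672.N4
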